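import Mathlib
import Pool.Agent.H499R2.LT.R5

set_option autoImplicit false

/-!
The law of the time at which the trajectories of the Collatz map on the integers meet a finite set.
-/

namespace Pool.Agent.Results.MP_d02c56_nt.HittingLaw

open Filter Topology

/-- the Collatz map on the integers -/
def C (x : ℤ) : ℤ := if x % 2 = 0 then x / 2 else 3 * x + 1

/-- the number of odd terms among `x, C x, ..., C^(t-1) x` -/
def odds (t : ℕ) (x : ℤ) : ℕ := ((Finset.range t).filter fun i => C^[i] x % 2 = 1).card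

/-- The trajectory of `x` meets `F` for the first time after exactly `e` even and `o` odd terms. -/
def FirstHit (F : Finset ℤ) (e o : ℕ) (x : ℤ) : Prop :=
  C^[e + o] x ∈ F ∧ (∀ i < e + o, C^[i] x ∉ F) ∧ odds (e + o) x = o

/-- The set of the positive integers with the property `P` has natural density `l`. -/
def HasDensity (P : ℕ → Prop) (l : ℝ) : Prop :=
  Tendsto (fun N : ℕ => (Set.ncard {n : ℕ | 1 ≤ n ∧ n ≤ N ∧ P n} : ℝ) / N) atTop (𝓝 l)

/-- `3 / log (4/3) * log n + x * log 6 * √(2 log n / (log (4/3))^3)` -/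
noncomputable def bound (x : ℝ) (n : ℕ) : ℝ :=
  3 / Real.log (4 / 3) * Real.log n
    + x * (Real.log 6 * Real.sqrt (2 * Real.log n / Real.log (4 / 3) ^ 3))

/-- The distribution function of the standard normal law. -/
noncomputable def Phi (x : ℝ) : ℝ :=
  ProbabilityTheory.cdf (ProbabilityTheory.gaussianReal 0 1) x

theorem oC_add (t : ℕ) (x : ℤ) : Pool.Agent.H499R2.LT.oC (t + 1) x
    = Pool.Agent.H499R2.LT.oC t x + (if C^[t] x % 2 = 0 then 0 else 1) := by
  induction t generalizing x with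
  | zero =>
    rw [Pool.Agent.H499R2.LT.oC, Pool.Agent.H499R2.LT.oC, Pool.Agent.H499R2.LT.oC]
    simp
  | succ t ih =>
    rw [Pool.Agent.H499R2.LT.oC, ih, Pool.Agent.H499R2.LT.oC, Function.iterate_succ_apply]
    change _ + (_ + (if C^[t] (C x) % 2 = 0 then 0 else 1)) = _
    ring

theorem odds_eq (t : ℕ) (x : ℤ) : Pool.Agent.H499R2.LT.oC t x = odds t x := by
  induction t with
  | zero => rfl
  | succ t ih =>
    rw [oC_add, ih]
    unfold odds
    rw [Finset.range_add_one, Finset.filter_insert]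
    rcases Int.emod_two_eq_zero_or_one (C^[t] x) with h | h
    · rw [if_pos h, if_neg (by omega)]
      simp
    · rw [if_neg (by omega), if_pos h, Finset.card_insert_of_notMem (by simp)]

theorem lev_eq (F : Finset ℤ) (e o : ℕ) (x : ℤ) :
    Pool.Agent.H499R2.LT.LevC F e o x ↔ FirstHit F e o x := by
  unfold FirstHit Pool.Agent.H499R2.LT.LevC Pool.Agent.H499R2.LT.LevT
  rw [odds_eq]
  rfl

/-- Let `s` be a sign and `F` a finite set of integers. The integers of the sign of `s` whose
trajectory meets `F` have a natural density `δ`, positive if `F` contains an integer of the sign of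
`s` prime to `3`. For every real `x`, every `m ≥ 1` and all `a`, `b`, those whose trajectory meets
`F` for the first time after `e` even and `o` odd terms with `e + o ≤ bound x n`, `e ≡ a` and
`o ≡ b` modulo `m`, have natural density `δ * Phi x / m ^ 2`. -/
theorem result (s : ℤ) (hs : s = 1 ∨ s = -1) (F : Finset ℤ) : ∃ δ : ℝ,
    ((∃ a ∈ F, 0 < s * a ∧ ¬ (3 : ℤ) ∣ a) → 0 < δ) ∧
    HasDensity (fun n => ∃ t : ℕ, C^[t] (s * n) ∈ F) δ ∧
    ∀ (x : ℝ) (m : ℕ) (a b : ℤ), 1 ≤ m →
      HasDensity (fun n => ∃ e o : ℕ, ((e + o : ℕ) : ℝ) ≤ bound x n ∧ FirstHit F e o (s * n) ∧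
        (e : ℤ) ≡ a [ZMOD m] ∧ (o : ℤ) ≡ b [ZMOD m]) (δ * Phi x / m ^ 2) := by
  obtain ⟨δ, _, hpos, hδ, hlaw⟩ := Pool.Agent.H499R2.LT.jointC hs F
  refine ⟨δ, hpos, hδ, fun x m a b hm => ?_⟩
  have h := hlaw x m a b hm
  have e : δ / (m : ℝ) ^ 2 * Pool.Agent.H499R2.ND.Phi x = δ * Phi x / m ^ 2 := by
    unfold Phi
    rw [← Pool.Agent.H499R2.ND.phi_cdf]
    ring
  rw [e] at h
  refine Pool.Agent.H499R2.LT.Dn_iff (fun n hn => ?_) h
  refine exists_congr fun e => exists_congr fun o => ?_
  rw [Pool.Agent.H499R2.ND.tb_eq x n hn, lev_eq]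
  rfl

end Pool.Agent.Results.MP_d02c56_nt.HittingLaw
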