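import Pool.Agent.H319R3.LV.LV6

/-!
The level of distribution of the sets invariant under the Collatz map.

Every set of integers which is invariant under the Collatz map and its inverse is equidistributed in
the residue classes modulo `3^m`, with an error smaller than any power of the logarithm, uniformly in
the set and in all moduli up to a power of the size of the integers; it has a natural density and is
equidistributed in the residue classes modulo `2^j 3^m`, again for all moduli up to a power.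
-/

set_option autoImplicit false
set_option linter.unusedVariables false

namespace Pool.Agent.Results.MP_d02c56_nt.LevelOfDistribution

open Filter Topology

/-- The Collatz map on the integers. -/
def C (x : ℤ) : ℤ := if x % 2 = 0 then x / 2 else 3 * x + 1

/-- `S` is invariant under the Collatz map and its inverse. -/
def Invariant (S : Set ℤ) : Prop := ∀ x : ℤ, x ∈ S ↔ C x ∈ S

/-- Among the integers of sign `s` the set `S` has natural density `δ`. -/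
def HasDensity (s : ℤ) (S : Set ℤ) (δ : ℝ) : Prop :=
  Tendsto (fun N : ℕ => ({n : ℤ | 0 < s * n ∧ s * n ≤ N ∧ n ∈ S}.ncard : ℝ) / N) atTop (𝓝 δ)

/-- The number of elements `n ≡ a` mod `q` of `S` with `0 < s n ≤ N`. -/
noncomputable def count (s : ℤ) (S : Set ℤ) (N : ℕ) (q a : ℤ) : ℕ :=
  {n : ℤ | 0 < s * n ∧ s * n ≤ N ∧ n ∈ S ∧ n ≡ a [ZMOD q]}.ncard

/-- The number of elements `n ≡ a` mod `q` of `S` with `X ≤ s n < 2 X`. -/
noncomputable def window (s : ℤ) (S : Set ℤ) (X : ℝ) (q a : ℤ) : ℕ :=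
  {n : ℤ | X ≤ (s * n : ℤ) ∧ ((s * n : ℤ) : ℝ) < 2 * X ∧ n ∈ S ∧ n ≡ a [ZMOD q]}.ncard

/-! ### proofs -/

open Pool.Agent.H319R3.LV Pool.Agent.H499R2.ND Pool.Agent.H320R2.PD

theorem modEq_iff (n a q : ℤ) : n ≡ a [ZMOD q] ↔ q ∣ n - a := by
  rw [Int.modEq_comm, Int.modEq_iff_dvd]

theorem count_eq (s : ℤ) (S : Set ℤ) (N : ℕ) (q a : ℤ) :
    count s S N q a = {n : ℤ | 0 < s * n ∧ s * n ≤ N ∧ n ∈ S ∧ q ∣ n - a}.ncard := by
  unfold count
  congr 1
  ext n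
  simp only [modEq_iff]

theorem window_eq {s : ℤ} (hs : s = 1 ∨ s = -1) (S : Set ℤ) (X : ℝ) (q a : ℤ) :
    window s S X q a = (wc {x | s * x ∈ S} X (2 * X) q (s * a)).card := by
  have hss : ∀ x : ℤ, s * (s * x) = x := by
    intro x; rcases hs with rfl | rfl <;> ring
  have himg : {n : ℤ | X ≤ (s * n : ℤ) ∧ ((s * n : ℤ) : ℝ) < 2 * X ∧ n ∈ S ∧ n ≡ a [ZMOD q]}
      = (fun x : ℤ => s * x) '' (wc {x | s * x ∈ S} X (2 * X) q (s * a) : Set ℤ) := by
    have hdvd : ∀ x : ℤ, q ∣ s * x - a ↔ q ∣ x - s * a := by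
      intro x
      rcases hs with rfl | rfl
      · simp
      · rw [show (-1 : ℤ) * x - a = -(x - -1 * a) by ring, dvd_neg]
    ext n
    rw [Set.mem_image]
    constructor
    · rintro ⟨h1, h2, h3, h4⟩
      refine ⟨s * n, ?_, hss n⟩
      rw [Finset.mem_coe, mem_wc]
      refine ⟨⟨h1, h2⟩, ?_, ?_⟩
      · change s * (s * n) ∈ S; rw [hss]; exact h3
      · rw [← hdvd, hss]; exact (modEq_iff _ _ _).1 h4
    · rintro ⟨x, hx, rfl⟩
      rw [Finset.mem_coe, mem_wc] at hx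
      obtain ⟨⟨h1, h2⟩, h3, h4⟩ := hx
      refine ⟨?_, ?_, h3, ?_⟩
      · rw [hss]; exact h1
      · rw [hss]; exact h2
      · rw [modEq_iff, hdvd]; exact h4
  unfold window
  rw [himg, Set.ncard_image_of_injective, Set.ncard_coe_finset]
  intro x y hxy
  have h := congrArg (fun z => s * z) hxy
  simp only [hss] at h
  exact h

theorem windows {s : ℤ} (hs : s = 1 ∨ s = -1) (B : ℕ) : ∃ K c : ℝ, 0 < c ∧
    ∀ S : Set ℤ, Invariant S → ∀ X : ℝ, 2 ≤ X → ∀ m : ℕ, (3 : ℝ) ^ m ≤ X ^ c → ∀ a : ℤ,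
      |(window s S X (3 ^ m) a : ℝ) - window s S X 1 0 / 3 ^ m|
        ≤ K * X / (3 ^ m * (Real.log X) ^ B) := by
  have hsodd : Odd s := by rcases hs with rfl | rfl <;> decide
  have hs3 : IsCoprime s 3 := by
    rcases hs with rfl | rfl
    · exact isCoprime_one_left
    · exact isCoprime_one_left.neg_left
  obtain ⟨K, hK, c₀, hc₀, hc₀1, h⟩ := equi_avg B hsodd hs3
  refine ⟨K + 4 * 2000 ^ B, c₀, hc₀, ?_⟩
  intro S hS X hX m hm a
  have hSi : Inv s {x | s * x ∈ S} := Ci_inv_s hs hS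
  have hX0 : 0 < X := by linarith
  have hlogX : 0 < Real.log X := Real.log_pos (by linarith)
  rw [window_eq hs, window_eq hs, mul_zero]
  have h3m : (1 : ℝ) ≤ 3 ^ m := one_le_pow₀ (by norm_num)
  have h3m0 : (0 : ℝ) < 3 ^ m := by linarith
  have hmle : (m : ℝ) ≤ c₀ * Real.log X := by
    have h1 := Real.log_le_log (by positivity) hm
    rw [Real.log_pow, Real.log_rpow hX0] at h1
    have h2 : (1 : ℝ) ≤ Real.log 3 := by
      rw [Real.le_log_iff_exp_le (by norm_num)]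
      have := Real.exp_one_lt_d9
      linarith
    have h3 : (m : ℝ) ≤ m * Real.log 3 := le_mul_of_one_le_right (Nat.cast_nonneg _) h2
    linarith
  rcases le_or_gt 2000 (Real.log X) with hbig | hsm
  · have h1 := h {x | s * x ∈ S} hSi X hX0 hbig m hmle (s * a)
    refine h1.trans ?_
    have h2 : K / Real.log X ^ B * (X / 3 ^ m) = K * X / (3 ^ m * Real.log X ^ B) := by
      field_simp
    rw [h2]
    apply div_le_div_of_nonneg_right _ (by positivity)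
    apply mul_le_mul_of_nonneg_right _ hX0.le
    have : (0 : ℝ) < 4 * 2000 ^ B := by positivity
    linarith
  · -- trivial bound
    have h1 := wc_card_le {x | s * x ∈ S} (by linarith : X ≤ 2 * X) (q := 3 ^ m) (by positivity) (s * a)
    have h2 := wc_card_le {x | s * x ∈ S} (by linarith : X ≤ 2 * X) (q := 1) one_pos 0
    push_cast at h1
    rw [show 2 * X - X = X by ring] at h1 h2
    have h3mX : (3 : ℝ) ^ m ≤ X := by
      refine hm.trans ?_
      calc X ^ c₀ ≤ X ^ (1 : ℝ) := Real.rpow_le_rpow_of_exponent_le (by linarith) (by linarith)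
        _ = X := Real.rpow_one X
    have h4 : 1 ≤ X / 3 ^ m := by rw [le_div_iff₀ h3m0]; linarith
    have h5 : ((wc {x | s * x ∈ S} X (2 * X) 1 0).card : ℝ) / 3 ^ m ≤ 2 * (X / 3 ^ m) := by
      rw [mul_div_assoc']
      apply div_le_div_of_nonneg_right _ h3m0.le
      push_cast at h2
      linarith
    have h6 : (0 : ℝ) ≤ (wc {x | s * x ∈ S} X (2 * X) 1 0).card / 3 ^ m := by positivity
    have h7 : (0 : ℝ) ≤ (wc {x | s * x ∈ S} X (2 * X) (3 ^ m) (s * a)).card := by positivity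
    have h8 : 4 * (X / 3 ^ m) ≤ (K + 4 * 2000 ^ B) * X / (3 ^ m * Real.log X ^ B) := by
      have h9 : Real.log X ^ B ≤ 2000 ^ B := pow_le_pow_left₀ hlogX.le hsm.le B
      rw [mul_div_assoc', div_le_div_iff₀ h3m0 (by positivity)]
      have h10 : (4 : ℝ) * Real.log X ^ B ≤ K + 4 * 2000 ^ B := by linarith
      calc 4 * X * (3 ^ m * Real.log X ^ B) = (4 * Real.log X ^ B) * (X * 3 ^ m) := by ring
        _ ≤ (K + 4 * 2000 ^ B) * (X * 3 ^ m) := mul_le_mul_of_nonneg_right h10 (by positivity)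
        _ = _ := by ring
    rw [abs_le]
    constructor
    · linarith
    · linarith

theorem result (s : ℤ) (hs : s = 1 ∨ s = -1) :
    (∀ B : ℕ, ∃ K c : ℝ, 0 < c ∧
      ∀ S : Set ℤ, Invariant S → ∀ X : ℝ, 2 ≤ X → ∀ m : ℕ, (3 : ℝ) ^ m ≤ X ^ c → ∀ a : ℤ,
        |(window s S X (3 ^ m) a : ℝ) - window s S X 1 0 / 3 ^ m|
          ≤ K * X / (3 ^ m * (Real.log X) ^ B)) ∧
    ∃ c : ℝ, 0 < c ∧ ∀ S : Set ℤ, Invariant S → ∃ δ : ℝ, HasDensity s S δ ∧
      (∀ ε : ℝ, 0 < ε → ∃ N₀ : ℕ, ∀ N : ℕ, N₀ ≤ N → ∀ j m : ℕ, (2 ^ j * 3 ^ m : ℝ) ≤ (N : ℝ) ^ c →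
        ∀ a : ℤ, |(count s S N (2 ^ j * 3 ^ m) a : ℝ) - δ * (N / (2 ^ j * 3 ^ m))|
          ≤ ε * (N / (2 ^ j * 3 ^ m))) ∧
      ((∃ x ∈ S, 0 < s * x) → 0 < δ ∧ ∃ A : ℕ, ∀ j m : ℕ, ∀ a : ℤ, ∃ n ∈ S,
        0 < s * n ∧ s * n ≤ A * (2 ^ j * 3 ^ m) ^ A ∧ n ≡ a [ZMOD 2 ^ j * 3 ^ m]) := by
  refine ⟨fun B => windows hs B, ?_⟩
  obtain ⟨c, hc, hc1, h⟩ := level_side odd_one isCoprime_one_left
  refine ⟨c, hc, ?_⟩
  intro S hS
  have hSi : Inv 1 S := Ci_inv hS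
  obtain ⟨δ, hδ0, hδ1, hδ⟩ := dens_side odd_one isCoprime_one_left hs hSi
  have hlev : ∀ ε : ℝ, 0 < ε → ∃ N₀ : ℕ, ∀ N : ℕ, N₀ ≤ N → ∀ j m : ℕ, (2 ^ j * 3 ^ m : ℝ) ≤ (N : ℝ) ^ c →
        ∀ a : ℤ, |(count s S N (2 ^ j * 3 ^ m) a : ℝ) - δ * (N / (2 ^ j * 3 ^ m))|
          ≤ ε * (N / (2 ^ j * 3 ^ m)) := by
    intro ε hε
    obtain ⟨N₀, _, hN₀⟩ := h s hs S hSi δ hδ ε hε
    refine ⟨N₀, fun N hN j m hjm a => ?_⟩
    rw [count_eq]
    exact hN₀ N hN j m hjm a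
  refine ⟨δ, HD_ncard hs hδ, hlev, ?_⟩
  rintro ⟨x, hxS, hx⟩
  have hδpos : 0 < δ := one_pos hs hSi hxS hx hδ
  refine ⟨hδpos, ?_⟩
  obtain ⟨N₀, hN₀⟩ := hlev (δ / 2) (by positivity)
  obtain ⟨r, hr⟩ := exists_nat_ge (1 / c)
  refine ⟨max (N₀ + 1) r, fun j m a => ?_⟩
  set A := max (N₀ + 1) r with hA
  set q : ℕ := 2 ^ j * 3 ^ m with hq
  have hq1 : 1 ≤ q := Nat.one_le_iff_ne_zero.2 (by positivity)
  have hAN : N₀ + 1 ≤ A := le_max_left _ _
  have hAr : r ≤ A := le_max_right _ _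
  set N : ℕ := A * q ^ A with hN
  have hqA : 1 ≤ q ^ A := Nat.one_le_pow _ _ hq1
  have hN1 : A ≤ N := Nat.le_mul_of_pos_right _ (by omega)
  have hN0 : N₀ ≤ N := by omega
  have hNpos : 1 ≤ N := by omega
  have hqR : (1 : ℝ) ≤ q := by exact_mod_cast hq1
  have hNR : (1 : ℝ) ≤ N := by exact_mod_cast hNpos
  have hqN : (2 ^ j * 3 ^ m : ℝ) ≤ (N : ℝ) ^ c := by
    have h1 : (q : ℝ) ^ (1 / c) ≤ N := by
      have h2 : (q : ℝ) ^ (1 / c) ≤ (q : ℝ) ^ (A : ℝ) := by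
        apply Real.rpow_le_rpow_of_exponent_le hqR
        refine hr.trans ?_
        exact_mod_cast hAr
      rw [Real.rpow_natCast] at h2
      refine h2.trans ?_
      have h3 : q ^ A ≤ N := Nat.le_mul_of_pos_left _ (by omega)
      exact_mod_cast h3
    have h2 : ((q : ℝ) ^ (1 / c)) ^ c ≤ (N : ℝ) ^ c := Real.rpow_le_rpow (by positivity) h1 hc.le
    rw [← Real.rpow_mul (by positivity), one_div, inv_mul_cancel₀ hc.ne', Real.rpow_one] at h2
    have h3 : (q : ℝ) = 2 ^ j * 3 ^ m := by rw [hq]; push_cast; ring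
    rw [← h3]; exact h2
  have h2 := hN₀ N hN0 j m hqN a
  have hpos : 0 < count s S N (2 ^ j * 3 ^ m) a := by
    have hY : (0 : ℝ) < N / (2 ^ j * 3 ^ m) := by positivity
    rw [abs_le] at h2
    have h3 : 0 < δ / 2 * (N / (2 ^ j * 3 ^ m) : ℝ) := by positivity
    have h4 : (0 : ℝ) < count s S N (2 ^ j * 3 ^ m) a := by linarith [h2.1]
    exact_mod_cast h4
  unfold count at hpos
  have hne : {n : ℤ | 0 < s * n ∧ s * n ≤ N ∧ n ∈ S ∧ n ≡ a [ZMOD 2 ^ j * 3 ^ m]}.Nonempty := by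
    rw [Set.nonempty_iff_ne_empty]
    intro h0
    rw [h0, Set.ncard_empty] at hpos
    exact lt_irrefl _ hpos
  obtain ⟨n, g1, g2, g3, g4⟩ := hne
  refine ⟨n, g3, g1, ?_, g4⟩
  have : ((N : ℕ) : ℤ) = (A : ℤ) * (2 ^ j * 3 ^ m) ^ A := by rw [hN, hq]; push_cast; ring
  rw [← this]; exact g2

end Pool.Agent.Results.MP_d02c56_nt.LevelOfDistribution
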