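import Mathlib
import Pool.Agent.H499R2.NDClass2

set_option autoImplicit false

namespace Pool.Agent.Results.MP_d02c56_nt.NaturalDensities

open Filter Topology

/-- The Collatz map on the integers. -/
def C (x : ℤ) : ℤ := if x % 2 = 0 then x / 2 else 3 * x + 1

/-- The trajectories of `a` and `b` merge. -/
def Merge (a b : ℤ) : Prop := ∃ i j : ℕ, C^[i] a = C^[j] b

/-- Among the integers of sign `s` the set `S` has natural density `δ`. -/
def HasDensity (s : ℤ) (S : Set ℤ) (δ : ℝ) : Prop :=
  Tendsto (fun N : ℕ => ({n : ℤ | 0 < s * n ∧ s * n ≤ N ∧ n ∈ S}.ncard : ℝ) / N) atTop (𝓝 δ)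

/-- `a` has sign `s` and the least absolute value among the integers of sign `s` whose trajectory
merges with that of `a`. -/
def IsRep (s a : ℤ) : Prop := 0 < s * a ∧ ∀ b : ℤ, 0 < s * b → Merge a b → s * a ≤ s * b

/-- The integers of sign `s = 1` or `s = -1` split into the merging classes of the Collatz map; every
class has a positive natural density, these densities add up to `1`, and every set invariant under the
Collatz map and its inverse has a natural density, the sum of the densities of the classes it
contains. -/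
theorem result (s : ℤ) (hs : s = 1 ∨ s = -1) : ∃ δ : ℤ → ℝ,
    (∀ a : ℤ, 0 < s * a → 0 < δ a ∧ HasDensity s {n | Merge n a} (δ a)) ∧
    (∀ S : Set ℤ, (∀ x : ℤ, x ∈ S ↔ C x ∈ S) →
      HasDensity s S (∑' a : {a : ℤ // IsRep s a ∧ a ∈ S}, δ a)) ∧
    HasSum (fun a : {a : ℤ // IsRep s a} => δ a) 1 :=
  Pool.Agent.H499R2.ND.structure_full hs

end Pool.Agent.Results.MP_d02c56_nt.NaturalDensities
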