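import Mathlib
import Pool.Agent.H499R2.LT.R3

set_option autoImplicit false

/-!
Local limit theorem for the Collatz map on the integers: the number of integers whose trajectory
meets a finite set for the first time after exactly `e` even and `o` odd terms.
-/

namespace Pool.Agent.Results.MP_d02c56_nt.TreeLocalLimit

open Filter Topology

/-- the Collatz map on the integers -/
def C (x : ℤ) : ℤ := if x % 2 = 0 then x / 2 else 3 * x + 1

/-- the number of odd terms among `x, C x, ..., C^(t-1) x` -/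
def odds (t : ℕ) (x : ℤ) : ℕ := ((Finset.range t).filter fun i => C^[i] x % 2 = 1).card

/-- The integers of the sign of `s` whose trajectory meets `F` for the first time after exactly
`e` even terms and `o` odd terms. -/
def Level (s : ℤ) (F : Finset ℤ) (e o : ℕ) : Set ℤ :=
  {x : ℤ | 0 < s * x ∧ C^[e + o] x ∈ F ∧ (∀ i < e + o, C^[i] x ∉ F) ∧ odds (e + o) x = o}

/-- The set of the positive integers with the property `P` has natural density `l`. -/
def HasDensity (P : ℕ → Prop) (l : ℝ) : Prop :=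
  Tendsto (fun N : ℕ => (Set.ncard {n : ℕ | 1 ≤ n ∧ n ≤ N ∧ P n} : ℝ) / N) atTop (𝓝 l)

theorem oC_add (t : ℕ) (x : ℤ) : Pool.Agent.H499R2.LT.oC (t + 1) x
    = Pool.Agent.H499R2.LT.oC t x + (if C^[t] x % 2 = 0 then 0 else 1) := by
  induction t generalizing x with
  | zero =>
    rw [Pool.Agent.H499R2.LT.oC, Pool.Agent.H499R2.LT.oC, Pool.Agent.H499R2.LT.oC]
    simp
  | succ t ih =>
    rw [Pool.Agent.H499R2.LT.oC, ih, Pool.Agent.H499R2.LT.oC, Function.iterate_succ_apply]
    change _ + (_ + (if C^[t] (C x) % 2 = 0 then 0 else 1)) = _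
    ring

theorem odds_eq (t : ℕ) (x : ℤ) : Pool.Agent.H499R2.LT.oC t x = odds t x := by
  induction t with
  | zero => rfl
  | succ t ih =>
    rw [oC_add, ih]
    unfold odds
    rw [Finset.range_add_one, Finset.filter_insert]
    rcases Int.emod_two_eq_zero_or_one (C^[t] x) with h | h
    · rw [if_pos h, if_neg (by omega)]
      simp
    · rw [if_neg (by omega), if_pos h, Finset.card_insert_of_notMem (by simp)]

theorem level_eq (s : ℤ) (F : Finset ℤ) (e o : ℕ) :
    Level s F e o = Pool.Agent.H499R2.LT.LevCs s F e o := by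
  ext x
  unfold Level Pool.Agent.H499R2.LT.LevCs Pool.Agent.H499R2.LT.LevC Pool.Agent.H499R2.LT.LevT
  rw [Set.mem_ofPred_eq, Set.mem_ofPred_eq, odds_eq]
  rfl

/-- Local limit theorem for the Collatz map on the integers. Let `s` be a sign and `F` a finite set
of integers. The integers of the level `(e, o)` are of the size of `2^e / 3^o`, up to a factor `A`.
There is `c ≥ 0` such that, for every `K`, the number of these integers is
`(c + o(1)) * binomial(e, o) / 3^o`, uniformly for `|2 o - e| ≤ K √e` as `e → ∞`. The constant `c`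
is positive if and only if the integers of the sign of `s` whose trajectory meets `F` have positive
natural density (the density exists), in particular if `F` contains an integer of the sign of `s`
which is prime to `3`. -/
theorem result (s : ℤ) (hs : s = 1 ∨ s = -1) (F : Finset ℤ) :
    ∃ A c δ : ℝ, 1 ≤ A ∧ 0 ≤ c ∧
      (∀ (e o : ℕ) (x : ℤ), x ∈ Level s F e o →
        2 ^ e / (A * 3 ^ o) ≤ |(x : ℝ)| ∧ |(x : ℝ)| ≤ A * 2 ^ e / 3 ^ o) ∧
      (∀ K ε : ℝ, 0 < ε → ∃ e0 : ℕ, ∀ e o : ℕ, e0 ≤ e → |2 * (o : ℝ) - e| ≤ K * Real.sqrt e →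
        |((Level s F e o).ncard : ℝ) * 3 ^ o / (e.choose o : ℝ) - c| ≤ ε) ∧
      HasDensity (fun n => ∃ t : ℕ, C^[t] (s * n) ∈ F) δ ∧
      (0 < c ↔ 0 < δ) ∧
      ((∃ a ∈ F, 0 < s * a ∧ ¬ (3 : ℤ) ∣ a) → 0 < c) := by
  obtain ⟨A, c, δ, h1, h2, h3, h4, h5, h6, h7⟩ := Pool.Agent.H499R2.LT.lltC hs F
  refine ⟨A, c, δ, h1, h2, ?_, ?_, h5, h6, h7⟩
  · intro e o x hx
    rw [level_eq] at hx
    exact h3 e o x hx
  · intro K ε hε
    obtain ⟨e0, he0⟩ := h4 K ε hε
    refine ⟨e0, fun e o he ho => ?_⟩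
    rw [level_eq]
    exact he0 e o he ho

end Pool.Agent.Results.MP_d02c56_nt.TreeLocalLimit
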